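import Pool.Agent.H568.GR.Stm

/-!
# Factorisation of a number without large prime factors
-/

set_option autoImplicit false

namespace Pool.Agent.TH134.GR

open Finset Pool.Agent.H568.GR

/-- a largest divisor `≤ Y`: either everything or every further prime exceeds `Y` -/
lemma big_div (m : ℕ) (hm : m ≠ 0) (Y : ℝ) (hY : 1 ≤ Y) :
    ∃ d : ℕ, d ∣ m ∧ (d : ℝ) ≤ Y ∧ ∀ e : ℕ, e ∣ m → (e : ℝ) ≤ Y → e ≤ d := by
  classical
  obtain ⟨d, hd, hmax⟩ := Finset.exists_max_image (m.divisors.filter (fun d : ℕ => (d : ℝ) ≤ Y))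
    (fun d => d) ⟨1, by simp [hm, hY]⟩
  rw [Finset.mem_filter, Nat.mem_divisors] at hd
  refine ⟨d, hd.1.1, hd.2, fun e he heY => hmax e ?_⟩
  rw [Finset.mem_filter, Nat.mem_divisors]
  exact ⟨⟨he, hm⟩, heY⟩

lemma parts (Y : ℝ) (hY : 1 ≤ Y) : ∀ (c m : ℕ), m ≠ 0 → (∀ p : ℕ, p.Prime → p ∣ m → (p : ℝ) ≤ Y) →
    (m : ℝ) ≤ Y ^ c → ∃ L : List ℕ, L.length = 2 * c + 1 ∧ L.prod = m ∧ ∀ a ∈ L, (a : ℝ) ≤ Y := by
  intro c
  induction c with
  | zero =>
    intro m hm _ hle
    have h1 : m = 1 := by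
      have : (m : ℝ) ≤ 1 := by simpa using hle
      have : m ≤ 1 := by exact_mod_cast this
      omega
    refine ⟨[1], by simp, by simp [h1], ?_⟩
    intro a ha
    simp only [List.mem_singleton] at ha
    rw [ha]; simpa using hY
  | succ c ih =>
    intro m hm hp hle
    have hY0 : 0 < Y := by linarith
    obtain ⟨d, hd, hdY, hdmax⟩ := big_div m hm Y hY
    by_cases hdm : d = m
    · refine ⟨m :: List.replicate (2 * (c + 1)) 1, by simp, by simp, ?_⟩
      intro a ha
      rw [List.mem_cons] at ha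
      rcases ha with rfl | ha
      · rw [← hdm]; exact hdY
      · rw [List.eq_of_mem_replicate ha]; simpa using hY
    · obtain ⟨m1, rfl⟩ := hd
      have hd0 : d ≠ 0 := left_ne_zero_of_mul hm
      have hm10 : m1 ≠ 0 := right_ne_zero_of_mul hm
      have hm11 : m1 ≠ 1 := fun h => hdm (by rw [h, mul_one])
      obtain ⟨p, pp, hpm⟩ := Nat.exists_prime_and_dvd hm11
      obtain ⟨e, he, heY, hemax⟩ := big_div m1 hm10 Y hY
      have hpY := hp p pp (hpm.mul_left d)
      have hpe := hemax p hpm hpY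
      have hbig : Y < (d : ℝ) * e := by
        by_contra hcon
        push Not at hcon
        have h1 : ((d * p : ℕ) : ℝ) ≤ Y := by
          push_cast
          refine le_trans ?_ hcon
          have : (p : ℝ) ≤ e := by exact_mod_cast hpe
          exact mul_le_mul_of_nonneg_left this (by positivity)
        have h2 := hdmax (d * p) (Nat.mul_dvd_mul_left d hpm) h1
        have h3 := pp.two_le
        have h4 : 0 < d := Nat.pos_of_ne_zero hd0
        nlinarith
      obtain ⟨m2, rfl⟩ := he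
      have he0 : e ≠ 0 := left_ne_zero_of_mul hm10
      have hm20 : m2 ≠ 0 := right_ne_zero_of_mul hm10
      obtain ⟨L, hL, hLp, hLY⟩ := ih m2 hm20
        (fun p' pp' hp' => hp p' pp' ((hp'.mul_left e).mul_left d)) (by
          have h1 : ((d : ℝ) * e) * m2 ≤ Y ^ (c + 1) := by
            have := hle
            push_cast at this
            linarith
          have h2 : Y * m2 ≤ Y ^ c * Y := by
            rw [← pow_succ]
            refine le_trans ?_ h1
            exact mul_le_mul_of_nonneg_right hbig.le (by positivity)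
          have h3 : (m2 : ℝ) * Y ≤ Y ^ c * Y := by linarith
          exact le_of_mul_le_mul_right h3 hY0)
      refine ⟨d :: e :: L, by simp [hL]; ring, by simp [hLp], ?_⟩
      intro a ha
      simp only [List.mem_cons] at ha
      rcases ha with rfl | rfl | ha
      · exact hdY
      · exact heY
      · exact hLY a ha

lemma partsFin (Y : ℝ) (hY : 1 ≤ Y) (c m : ℕ) (hm : m ≠ 0)
    (hp : ∀ p : ℕ, p.Prime → p ∣ m → (p : ℝ) ≤ Y) (hle : (m : ℝ) ≤ Y ^ c) :
    ∃ Q : Fin (2 * c + 1) → ℕ, m = ∏ i, Q i ∧ ∀ i, (Q i : ℝ) ≤ Y := by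
  obtain ⟨L, hL, hLp, hLY⟩ := parts Y hY c m hm hp hle
  rw [← hL]
  refine ⟨L.get, ?_, fun i => hLY _ (List.get_mem _ _)⟩
  rw [← hLp, ← List.prod_ofFn, List.ofFn_get]

/-- **FAC.** -/
theorem fac : S_FAC := by
  classical
  intro c q Y R hc hodd hsq hR hRY hp hq hRq
  have hq0 : q ≠ 0 := hsq.ne_zero
  have hY : 1 ≤ Y := le_trans (one_le_pow₀ hR) hRY
  have key : ∀ r : ℕ, r ∣ q → ∃ Q : Fin (2 * c + 1) → ℕ, q = r * ∏ i, Q i ∧ ∀ i, (Q i : ℝ) ≤ Y := by
    intro r hr
    obtain ⟨m, rfl⟩ := hr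
    have hm0 : m ≠ 0 := right_ne_zero_of_mul hq0
    have hr0 : r ≠ 0 := left_ne_zero_of_mul hq0
    obtain ⟨Q, hQ, hQY⟩ := partsFin Y hY c m hm0 (fun p pp hpm => hp p pp (hpm.mul_left r)) (by
      refine le_trans ?_ hq
      have : m ≤ r * m := Nat.le_mul_of_pos_left m (Nat.pos_of_ne_zero hr0)
      exact_mod_cast this)
    exact ⟨Q, by rw [← hQ], hQY⟩
  by_cases h : ∃ p : ℕ, p.Prime ∧ p ∣ q ∧ R < p
  · obtain ⟨p, pp, hpq, hRp⟩ := h
    obtain ⟨Q, h1, h2⟩ := key p hpq
    exact ⟨p, Q, h1, h2, Or.inr ⟨pp, hRp⟩⟩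
  · push Not at h
    obtain ⟨r, hr, hmin⟩ := Finset.exists_min_image (q.divisors.filter (fun d : ℕ => R ≤ (d : ℝ)))
      (fun d => d) ⟨q, by simp [hq0, hRq.le]⟩
    rw [Finset.mem_filter, Nat.mem_divisors] at hr
    obtain ⟨Q, h1, h2⟩ := key r hr.1.1
    refine ⟨r, Q, h1, h2, Or.inl ⟨hr.2, ?_⟩⟩
    by_cases hr1 : r = 1
    · rw [hr1]; simp only [Nat.cast_one]; exact one_le_pow₀ hR
    · obtain ⟨p, pp, hpr⟩ := Nat.exists_prime_and_dvd hr1
      obtain ⟨r', rfl⟩ := hpr
      have hpR := h p pp ((Dvd.intro _ rfl).trans hr.1.1)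
      have hr0 : p * r' ≠ 0 := fun h0 => hq0 (by
        have := hr.1.1; rw [h0] at this; exact Nat.eq_zero_of_zero_dvd this)
      have hr'0 : 0 < r' := Nat.pos_of_ne_zero (right_ne_zero_of_mul hr0)
      have hlt : (r' : ℝ) < R := by
        by_contra hcon
        push Not at hcon
        have h3 := hmin r' (by
          rw [Finset.mem_filter, Nat.mem_divisors]
          exact ⟨⟨(Dvd.intro_left _ rfl).trans hr.1.1, hq0⟩, hcon⟩)
        have h4 := pp.two_le
        nlinarith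
      push_cast
      have : (0 : ℝ) ≤ p := by positivity
      have : (0 : ℝ) ≤ r' := by positivity
      nlinarith

end Pool.Agent.TH134.GR
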