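import Pool.Agent.H568.GR.Stm
import Pool.Agent.H307R2.Sg1

/-!
# The value at 1 of the real character `n ↦ (D/n)`, `n` odd
-/

set_option autoImplicit false

namespace Pool.Agent.TH134.GR

open Finset Pool.Agent.H568.GR

/-- the function `n ↦ (D/n)` for odd `n`, `0` for even `n` -/
def jf (D : ℤ) (n : ℕ) : ℤ := if Odd n then jacobiSym D n else 0

lemma jf_mod (D : ℤ) (n : ℕ) : jf D (n % (4 * D.natAbs)) = jf D n := by
  unfold jf
  have hpar : Odd (n % (4 * D.natAbs)) ↔ Odd n := by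
    rw [Nat.odd_iff, Nat.odd_iff]
    have : n % (4 * D.natAbs) % 2 = n % 2 := by
      rw [Nat.mod_mod_of_dvd]
      exact ⟨2 * D.natAbs, by ring⟩
    rw [this]
  by_cases h : Odd n
  · rw [if_pos h, if_pos (hpar.2 h)]
    exact (jacobiSym.mod_right D h).symm
  · rw [if_neg h, if_neg (fun h' => h (hpar.1 h'))]

lemma jf_mul (D : ℤ) (m n : ℕ) : jf D (m * n) = jf D m * jf D n := by
  unfold jf
  by_cases hm : Odd m
  · by_cases hn : Odd n
    · rw [if_pos hm, if_pos hn, if_pos (hm.mul hn)]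
      have : NeZero m := ⟨hm.pos.ne'⟩
      have : NeZero n := ⟨hn.pos.ne'⟩
      exact jacobiSym.mul_right D m n
    · rw [if_neg hn, if_neg (fun h => hn (Nat.odd_mul.1 h).2), mul_zero]
  · rw [if_neg hm, if_neg (fun h => hm (Nat.odd_mul.1 h).1), zero_mul]

lemma jf_one (D : ℤ) : jf D 1 = 1 := by
  unfold jf
  simp

lemma jf_trich (D : ℤ) (n : ℕ) : jf D n = 0 ∨ jf D n = 1 ∨ jf D n = -1 := by
  unfold jf
  split_ifs
  · exact jacobiSym.trichotomy D n
  · exact Or.inl rfl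

lemma jf_nonunit (D : ℤ) (n : ℕ) (h : ¬ n.Coprime (4 * D.natAbs)) : jf D n = 0 := by
  unfold jf
  by_cases hn : Odd n
  · rw [if_pos hn]
    refine jacobiSym.eq_zero_iff.2 ⟨hn.pos.ne', fun hg => h ?_⟩
    have h4 : n.Coprime 4 := by
      have : n.Coprime 2 := (Nat.coprime_two_right).2 hn
      exact Nat.Coprime.mul_right this this
    have hD' : n.Coprime D.natAbs := by
      rw [Nat.coprime_comm]
      simpa [Int.gcd] using hg
    exact Nat.Coprime.mul_right h4 hD'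
  · rw [if_neg hn]

/-- the character -/
noncomputable def psi (D : ℤ) (hD : D ≠ 0) : DirichletCharacter ℂ (4 * D.natAbs) where
  toFun a := ((jf D a.val : ℤ) : ℂ)
  map_one' := by
    have h1 : 1 < 4 * D.natAbs := by
      have := Int.natAbs_pos.2 hD
      omega
    have : Fact (1 < 4 * D.natAbs) := ⟨h1⟩
    rw [ZMod.val_one, jf_one]
    simp
  map_mul' a b := by
    have : NeZero (4 * D.natAbs) := ⟨by have := Int.natAbs_pos.2 hD; omega⟩
    rw [ZMod.val_mul, jf_mod, jf_mul]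
    push_cast
    rfl
  map_nonunit' a ha := by
    have : NeZero (4 * D.natAbs) := ⟨by have := Int.natAbs_pos.2 hD; omega⟩
    have h : ¬ a.val.Coprime (4 * D.natAbs) := by
      intro hc
      apply ha
      have := (ZMod.isUnit_iff_coprime a.val (4 * D.natAbs)).2 hc
      rwa [ZMod.natCast_zmod_val] at this
    simp only [jf_nonunit D _ h]
    simp

lemma psi_nat (D : ℤ) (hD : D ≠ 0) (n : ℕ) :
    psi D hD (n : ZMod (4 * D.natAbs)) = ((jf D n : ℤ) : ℂ) := by
  change ((jf D ((n : ZMod (4 * D.natAbs))).val : ℤ) : ℂ) = _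
  rw [ZMod.val_natCast, jf_mod]

lemma psi_sq (D : ℤ) (hD : D ≠ 0) : psi D hD ^ 2 = 1 := by
  apply MulChar.IsQuadratic.sq_eq_one
  intro a
  change ((jf D a.val : ℤ) : ℂ) = 0 ∨ ((jf D a.val : ℤ) : ℂ) = 1 ∨ ((jf D a.val : ℤ) : ℂ) = -1
  rcases jf_trich D a.val with h | h | h <;> rw [h] <;> simp

lemma psi_ne (D : ℤ) (hD : D ≠ 0) (h : ∃ n : ℕ, Odd n ∧ jacobiSym D n = -1) : psi D hD ≠ 1 := by
  obtain ⟨n, hn, hj⟩ := h
  intro he
  have h1 := psi_nat D hD n
  rw [he] at h1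
  have h2 : jf D n = -1 := by unfold jf; rw [if_pos hn, hj]
  rw [h2] at h1
  by_cases hu : IsUnit (n : ZMod (4 * D.natAbs))
  · rw [MulChar.one_apply hu] at h1
    norm_num at h1
  · rw [MulChar.map_nonunit _ hu] at h1
    norm_num at h1

/-- **L**, from Siegel's theorem. -/
theorem lval_of (hS : ∀ ε : ℝ, 0 < ε → ∃ c : ℝ, 0 < c ∧ ∀ (q : ℕ) [NeZero q]
    (χ : DirichletCharacter ℂ q), χ ^ 2 = 1 → χ ≠ 1 → c * (q : ℝ) ^ (-ε) ≤ ‖χ.LFunction 1‖) :
    S_L := by
  intro ε hε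
  obtain ⟨c, hc, hS⟩ := hS ε hε
  refine ⟨c * 4 ^ (-ε), by positivity, ?_⟩
  intro D hD hn
  have : NeZero (4 * D.natAbs) := ⟨by have := Int.natAbs_pos.2 hD; omega⟩
  have h2 := psi_sq D hD
  have h1 := psi_ne D hD hn
  have habs : |(D : ℝ)| = (D.natAbs : ℝ) := by
    rw [← Int.cast_abs, Int.abs_eq_natAbs]; simp
  have him : ((psi D hD).LFunction 1).im = 0 := by
    have := Pool.Agent.H307R2.LFunction_im h2 h1 (x := 1) one_pos
    simpa using this
  set L := ((psi D hD).LFunction 1).re with hL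
  have hLc : (psi D hD).LFunction 1 = (L : ℂ) := by
    apply Complex.ext
    · simp [hL]
    · simp [him]
  refine ⟨L, ?_, ?_⟩
  · have a := hS (4 * D.natAbs) (psi D hD) h2 h1
    rw [hLc, Complex.norm_real, Real.norm_eq_abs] at a
    rw [habs]
    push_cast at a
    rw [Real.mul_rpow (by norm_num) (by positivity)] at a
    linarith
  · intro Z hZ
    have a := Pool.Agent.H307R2.LFunction_eq h1 hZ (s := 1) (by simp)
    have b := Pool.Agent.H307R2.TM_norm_le hZ (E := Pool.Agent.H307R2.Ech (psi D hD) Z)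
      (Pool.Agent.H307R2.Ech_norm_le h1 Z) (s := 1) (by simp)
    have e : ∑ n ∈ Icc 1 Z, psi D hD (n : ZMod (4 * D.natAbs)) * (n : ℂ) ^ (-(1 : ℂ)) =
        ((∑ d ∈ (Icc 1 Z).filter (fun n => Odd n), ((jacobiSym D d : ℤ) : ℝ) / d : ℝ) : ℂ) := by
      rw [Finset.sum_filter]
      push_cast
      refine Finset.sum_congr rfl fun n _ => ?_
      rw [psi_nat]
      unfold jf
      split_ifs with ho
      · rw [Complex.cpow_neg_one]
        push_cast
        rw [div_eq_mul_inv]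
      · simp
    rw [e, hLc, one_mul] at a
    have f : (((∑ d ∈ (Icc 1 Z).filter (fun n => Odd n), ((jacobiSym D d : ℤ) : ℝ) / d) - L : ℝ) : ℂ) =
        -Pool.Agent.H307R2.TM Z (Pool.Agent.H307R2.Ech (psi D hD) Z) 1 := by
      rw [Complex.ofReal_sub, a]
      ring
    have g : |(∑ d ∈ (Icc 1 Z).filter (fun n => Odd n), ((jacobiSym D d : ℤ) : ℝ) / d) - L| =
        ‖Pool.Agent.H307R2.TM Z (Pool.Agent.H307R2.Ech (psi D hD) Z) 1‖ := by
      rw [← Real.norm_eq_abs, ← Complex.norm_real, f, norm_neg]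
    rw [g]
    refine b.trans ?_
    rw [habs]
    have hZ0 : (0 : ℝ) < Z := by exact_mod_cast hZ
    simp only [Complex.one_re, div_one]
    rw [Real.rpow_neg_one]
    push_cast
    rw [← div_eq_mul_inv]
    gcongr
    norm_num

end Pool.Agent.TH134.GR
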