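import Pool.Agent.H568.GR.Stm

/-!
# The average over all shifts modulo a squarefree number
-/

set_option autoImplicit false

namespace Pool.Agent.TH134.GR

open Finset Pool.Agent.H568.GR

/-- reduction modulo the primes of `r` -/
def phi {k r : ℕ} (h : Fin k → Fin r) (p : r.primeFactors) : Fin k → Fin p.1 :=
  fun i => ⟨(h i : ℕ) % p.1, Nat.mod_lt _ (Nat.pos_of_mem_primeFactors p.2)⟩

lemma phi_inj {k r : ℕ} (hr : Squarefree r) :
    Function.Injective (fun h : Fin k → Fin r => fun p : r.primeFactors => phi h p) := by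
  intro h h' e
  funext i
  have h1 : ∀ p ∈ r.primeFactors, (h i : ℕ) ≡ (h' i : ℕ) [MOD p] := by
    intro p hp
    have := congrFun (congrFun e ⟨p, hp⟩) i
    simp only [phi, Fin.mk.injEq] at this
    exact this
  have h2 : (r : ℤ) ∣ ((h' i : ℕ) : ℤ) - ((h i : ℕ) : ℤ) := by
    have e1 : (r : ℤ) = ∏ p ∈ r.primeFactors, (p : ℤ) := by
      rw [← Nat.cast_prod]
      exact_mod_cast (Nat.prod_primeFactors_of_squarefree hr).symm
    rw [e1]
    refine Finset.prod_dvd_of_coprime ?_ ?_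
    · intro a ha b hb hab
      have pa := Nat.prime_of_mem_primeFactors ha
      have pb := Nat.prime_of_mem_primeFactors hb
      exact (Nat.isCoprime_iff_coprime).2 ((Nat.coprime_primes pa pb).2 hab)
    · intro p hp
      exact (Nat.modEq_iff_dvd).1 (h1 p hp)
  have h3 : (h i : ℕ) ≡ (h' i : ℕ) [MOD r] := (Nat.modEq_iff_dvd).2 h2
  have h4 := Nat.ModEq.eq_of_lt_of_lt h3 (h i).2 (h' i).2
  exact Fin.ext h4

lemma phi_bij {k r : ℕ} (hr : Squarefree r) :
    Function.Bijective (fun h : Fin k → Fin r => fun p : r.primeFactors => phi h p) := by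
  rw [Fintype.bijective_iff_injective_and_card]
  refine ⟨phi_inj hr, ?_⟩
  simp only [Fintype.card_pi, Fintype.card_fin, Finset.prod_const, Finset.card_univ]
  rw [Finset.prod_coe_sort r.primeFactors (fun p => p ^ k), Finset.prod_pow,
    Nat.prod_primeFactors_of_squarefree hr]

lemma sum_phi {k r : ℕ} (hr : Squarefree r) (F : ∀ p : r.primeFactors, (Fin k → Fin p.1) → ℝ) :
    ∑ h : Fin k → Fin r, ∏ p : r.primeFactors, F p (phi h p) =
      ∏ p : r.primeFactors, ∑ u : Fin k → Fin p.1, F p u := by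
  rw [Finset.prod_univ_sum]
  simp only [Fintype.piFinset_univ]
  exact (phi_bij hr).sum_comp (fun x => ∏ p, F p (x p))

lemma sum_phi2 {k r : ℕ} (hr : Squarefree r)
    (F : ∀ p : r.primeFactors, (Fin k → Fin p.1) → (Fin k → Fin p.1) → ℝ) :
    ∑ h : Fin k → Fin r, ∑ h' : Fin k → Fin r, ∏ p : r.primeFactors, F p (phi h p) (phi h' p) =
      ∏ p : r.primeFactors, ∑ u : Fin k → Fin p.1, ∑ u' : Fin k → Fin p.1, F p u u' := by
  have h1 : ∀ h : Fin k → Fin r, ∑ h' : Fin k → Fin r,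
      ∏ p : r.primeFactors, F p (phi h p) (phi h' p) =
      ∏ p : r.primeFactors, ∑ u' : Fin k → Fin p.1, F p (phi h p) u' :=
    fun h => sum_phi hr (fun p u' => F p (phi h p) u')
  simp only [h1]
  exact sum_phi hr (fun p u => ∑ u' : Fin k → Fin p.1, F p u u')

lemma cp_congr {k : ℕ} (p : ℕ) (Q : Fin k → ℕ) (h h' g g' : Fin k → ℤ)
    (e : ∀ i, h i ≡ g i [ZMOD p]) (e' : ∀ i, h' i ≡ g' i [ZMOD p]) :
    cp p Q h h' = cp p Q g g' := by
  unfold cp
  congr 2
  refine Finset.sum_congr rfl fun x _ => Finset.prod_congr rfl fun ω _ => ?_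
  congr 1
  have h1 : ((x : ℤ) + sh Q h h' ω) ≡ ((x : ℤ) + sh Q g g' ω) [ZMOD p] := by
    refine Int.ModEq.add_left _ ?_
    unfold sh
    have : ∀ s : Finset (Fin k), (∑ i ∈ s, (Q i : ℤ) * (if ω i then h i else h' i)) ≡
        (∑ i ∈ s, (Q i : ℤ) * (if ω i then g i else g' i)) [ZMOD p] := by
      intro s
      induction s using Finset.induction_on with
      | empty => simp
      | insert a s ha ih =>
        rw [Finset.sum_insert ha, Finset.sum_insert ha]
        refine Int.ModEq.add (Int.ModEq.mul_left _ ?_) ih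
        by_cases c : ω a = true
        · simp only [c, if_true]; exact e a
        · simp only [c]; exact e' a
    exact this univ
  rw [jacobiSym.mod_left ((x : ℤ) + sh Q h h' ω), jacobiSym.mod_left ((x : ℤ) + sh Q g g' ω)]
  unfold Int.ModEq at h1
  rw [h1]

lemma cp_nonneg {k : ℕ} (p : ℕ) (Q : Fin k → ℕ) (h h' : Fin k → ℤ) : 0 ≤ cp p Q h h' := by
  unfold cp
  positivity

/-- **AVF.** -/
theorem avf (hA : S_AVP) : S_AVF := by
  intro k hk Q r hodd hsq hco
  have hr0 : r ≠ 0 := hsq.ne_zero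
  set f : ∀ p : r.primeFactors, (Fin k → Fin p.1) → (Fin k → Fin p.1) → ℝ := fun p u u' =>
    cp p.1 Q (fun i => ((u i : ℕ) : ℤ)) (fun i => ((u' i : ℕ) : ℤ)) with hf
  have h1 : (∑ h : Fin k → Fin r, ∑ h' : Fin k → Fin r,
      ∏ p ∈ r.primeFactors, cp p Q (fun i => ((h i : ℕ) : ℤ)) (fun i => ((h' i : ℕ) : ℤ))) =
      ∏ p : r.primeFactors, ∑ u : Fin k → Fin p.1, ∑ u' : Fin k → Fin p.1, f p u u' := by
    rw [← sum_phi2 hsq f]
    refine Finset.sum_congr rfl fun h _ => Finset.sum_congr rfl fun h' _ => ?_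
    rw [← Finset.prod_coe_sort r.primeFactors (fun p => cp p Q (fun i => ((h i : ℕ) : ℤ))
      (fun i => ((h' i : ℕ) : ℤ)))]
    refine Finset.prod_congr rfl fun p _ => ?_
    rw [hf]
    refine cp_congr _ _ _ _ _ _ (fun i => ?_) (fun i => ?_)
    · simp only [phi]
      push_cast
      exact (Int.mod_modEq _ _).symm
    · simp only [phi]
      push_cast
      exact (Int.mod_modEq _ _).symm
  have h2 : ∀ p : r.primeFactors, ∑ u : Fin k → Fin p.1, ∑ u' : Fin k → Fin p.1, f p u u' ≤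
      (2 ^ (k + 3) / √(p.1 : ℝ)) * (p.1 : ℝ) ^ (2 * k) := by
    intro p
    have pp := Nat.prime_of_mem_primeFactors p.2
    have pd := Nat.dvd_of_mem_primeFactors p.2
    have p2 : p.1 ≠ 2 := by
      intro h
      rw [h] at pd
      have := Nat.odd_iff.1 hodd
      omega
    have pQ : ∀ i, ¬ p.1 ∣ Q i := by
      intro i hd
      have := Nat.dvd_gcd pd hd
      rw [(hco i)] at this
      exact pp.one_lt.ne' (Nat.dvd_one.1 this)
    have a := hA k hk Q p.1 p.1 pp p2 pp.one_lt.le pQ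
    have pp0 : (0 : ℝ) < p.1 := by exact_mod_cast pp.pos
    have pp1 : (1 : ℝ) ≤ p.1 := by exact_mod_cast pp.one_lt.le
    rw [div_le_iff₀ (by positivity)] at a
    refine a.trans (mul_le_mul_of_nonneg_right ?_ (by positivity))
    have hs : √(p.1 : ℝ) ≤ p.1 := by
      rw [Real.sqrt_le_left pp0.le]
      nlinarith
    have hs0 : 0 < √(p.1 : ℝ) := Real.sqrt_pos.2 pp0
    have b : 1 / (p.1 : ℝ) ≤ 1 / √(p.1 : ℝ) := one_div_le_one_div_of_le hs0 hs
    calc (2 : ℝ) ^ (k + 2) * (1 / √(p.1 : ℝ) + 1 / (p.1 : ℝ)) ≤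
        2 ^ (k + 2) * (1 / √(p.1 : ℝ) + 1 / √(p.1 : ℝ)) := by gcongr
      _ = 2 ^ (k + 3) / √(p.1 : ℝ) := by rw [pow_succ 2 (k + 2)]; ring
  rw [h1]
  have hrr : (0 : ℝ) < r := by exact_mod_cast Nat.pos_of_ne_zero hr0
  rw [div_le_iff₀ (by positivity)]
  calc ∏ p : r.primeFactors, ∑ u : Fin k → Fin p.1, ∑ u' : Fin k → Fin p.1, f p u u'
      ≤ ∏ p : r.primeFactors, ((2 ^ (k + 3) / √(p.1 : ℝ)) * (p.1 : ℝ) ^ (2 * k)) :=
        Finset.prod_le_prod (fun p _ => Finset.sum_nonneg fun u _ => Finset.sum_nonneg fun u' _ =>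
          cp_nonneg _ _ _ _) (fun p _ => h2 p)
    _ = ∏ p ∈ r.primeFactors, ((2 ^ (k + 3) / √(p : ℝ)) * (p : ℝ) ^ (2 * k)) :=
        Finset.prod_coe_sort r.primeFactors (fun p => ((2 ^ (k + 3) / √(p : ℝ)) * (p : ℝ) ^ (2 * k)))
    _ = (2 ^ (k + 3) : ℝ) ^ r.primeFactors.card / √(r : ℝ) * (r : ℝ) ^ (2 * k) := by
        have e1 : (∏ p ∈ r.primeFactors, (p : ℝ)) = r := by
          rw [← Nat.cast_prod, Nat.prod_primeFactors_of_squarefree hsq]
        have e2 : ∏ p ∈ r.primeFactors, √(p : ℝ) = √(r : ℝ) := by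
          have : ∀ s : Finset ℕ, ∏ p ∈ s, √(p : ℝ) = √(∏ p ∈ s, (p : ℝ)) := by
            intro s
            induction s using Finset.induction_on with
            | empty => simp
            | insert a s ha ih =>
              rw [Finset.prod_insert ha, Finset.prod_insert ha, ih, Real.sqrt_mul (by positivity)]
          rw [this, e1]
        rw [Finset.prod_mul_distrib, Finset.prod_div_distrib, Finset.prod_const, e2,
          Finset.prod_pow, e1]

end Pool.Agent.TH134.GR
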