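import Pool.Agent.TH134.GR.Lv
import Pool.Agent.H705R2.MLogB

set_option autoImplicit false

namespace Pool.Agent.TH134.GR

open Pool.Agent.H568.GR

/-- **L.** -/
theorem lval : S_L := lval_of (fun _ hε => Pool.Agent.H705R2.MSW.siegel_all hε)

end Pool.Agent.TH134.GR
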