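import Pool.Agent.H568.GR.Stm

/-!
# The iterated van der Corput inequality with periodic factors removed
-/

set_option autoImplicit false

namespace Pool.Agent.TH134.GR

open Finset Pool.Agent.H568.GR

lemma shift_sum (F : ℤ → ℝ) (hF : ∀ n, |F n| ≤ 1) (N : ℕ) (t : ℕ) :
    |∑ n ∈ range N, F n - ∑ n ∈ range N, F (n + t)| ≤ 2 * t := by
  induction t with
  | zero => simp
  | succ t ih =>
    have h1 : ∑ n ∈ range N, F (n + t) - ∑ n ∈ range N, F (n + (t + 1 : ℕ)) = F t - F (N + t) := by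
      rw [← Finset.sum_sub_distrib]
      have := Finset.sum_range_sub' (fun n : ℕ => F ((n : ℤ) + t)) N
      simp only [Nat.cast_zero, zero_add] at this
      rw [← this]
      refine Finset.sum_congr rfl fun n _ => ?_
      congr 2
      push_cast
      ring
    have h2 : |F t - F (N + t)| ≤ 2 := by
      have a := abs_le.1 (hF t)
      have b := abs_le.1 (hF (N + t))
      rw [abs_le]
      constructor <;> linarith [a.1, a.2, b.1, b.2]
    calc |∑ n ∈ range N, F n - ∑ n ∈ range N, F (n + (t + 1 : ℕ))|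
        = |(∑ n ∈ range N, F n - ∑ n ∈ range N, F (n + t)) +
            (∑ n ∈ range N, F (n + t) - ∑ n ∈ range N, F (n + (t + 1 : ℕ)))| := by
          congr 1; ring
      _ ≤ 2 * t + 2 := by
          refine (abs_add_le _ _).trans (add_le_add ih ?_)
          rw [h1]; exact h2
      _ = 2 * ((t + 1 : ℕ) : ℝ) := by push_cast; ring

lemma inner_le_aux (N : ℕ) (f : ℕ → ℝ) :
    (∑ n ∈ range N, f n) ^ 2 ≤ N * ∑ n ∈ range N, f n ^ 2 := by
  have := sq_sum_le_card_mul_sum_sq (s := range N) (f := f)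
  simpa using this

/-- one van der Corput step -/
lemma vdc_one (Q : ℕ) (w G : ℤ → ℝ) (A : ℤ) (N H : ℕ) (δ : ℝ) (hN : 1 ≤ N) (hH : 1 ≤ H)
    (hδ : 0 ≤ δ) (hδ1 : δ ≤ 1) (hw : ∀ n, |w n| ≤ 1) (hG : ∀ n, |G n| ≤ 1)
    (hper : ∀ n, w (n + Q) = w n) (hQ : (Q : ℝ) * H ≤ δ * N) :
    (|∑ n ∈ range N, w (A + n) * G (A + n)| / N) ^ 2 ≤
      8 * (δ + ∑ p : Fin H × Fin H, (1 / (H : ℝ) ^ 2) *
        (|∑ n ∈ range N, G (A + n + Q * (p.1 : ℕ)) * G (A + n + Q * (p.2 : ℕ))| / N)) := by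
  set S := ∑ n ∈ range N, w (A + n) * G (A + n) with hS
  have hN' : (0 : ℝ) < N := by exact_mod_cast hN
  have hH' : (0 : ℝ) < H := by exact_mod_cast hH
  have hperm : ∀ (h : ℕ) (n : ℤ), w (n + Q * h) = w n := by
    intro h
    induction h with
    | zero => intro n; simp
    | succ h ih =>
      intro n
      have : n + (Q : ℤ) * ((h + 1 : ℕ) : ℤ) = (n + Q * h) + Q := by push_cast; ring
      rw [this, hper, ih]
  -- shifted sums
  have h1 : ∀ h : Fin H, |S - ∑ n ∈ range N, w (A + n) * G (A + n + Q * (h : ℕ))| ≤ 2 * (δ * N) := by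
    intro h
    have a := shift_sum (fun m => w (A + m) * G (A + m)) (fun m => by
      rw [abs_mul]; exact mul_le_one₀ (hw _) (abs_nonneg _) (hG _)) N (Q * (h : ℕ))
    have b : ∑ n ∈ range N, w (A + ((n : ℤ) + (Q * (h : ℕ) : ℕ))) * G (A + ((n : ℤ) + (Q * (h : ℕ) : ℕ))) =
        ∑ n ∈ range N, w (A + n) * G (A + n + Q * (h : ℕ)) := by
      refine Finset.sum_congr rfl fun n _ => ?_
      have e : A + ((n : ℤ) + ((Q * (h : ℕ) : ℕ) : ℤ)) = A + n + Q * (h : ℕ) := by push_cast; ring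
      rw [e, hperm]
    rw [b] at a
    refine a.trans ?_
    have c : (((Q * (h : ℕ) : ℕ)) : ℝ) ≤ Q * H := by
      push_cast
      exact mul_le_mul_of_nonneg_left (by exact_mod_cast h.2.le) (by positivity)
    linarith
  -- the double sum
  set U : ℝ := ∑ n ∈ range N, |∑ h : Fin H, G (A + n + Q * (h : ℕ))| with hU
  have h2 : (H : ℝ) * |S| ≤ 2 * δ * N * H + U := by
    have a : (H : ℝ) * S = ∑ h : Fin H, (S - ∑ n ∈ range N, w (A + n) * G (A + n + Q * (h : ℕ))) +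
        ∑ n ∈ range N, w (A + n) * ∑ h : Fin H, G (A + n + Q * (h : ℕ)) := by
      rw [Finset.sum_sub_distrib]
      have : ∑ h : Fin H, ∑ n ∈ range N, w (A + n) * G (A + n + Q * (h : ℕ)) =
          ∑ n ∈ range N, w (A + n) * ∑ h : Fin H, G (A + n + Q * (h : ℕ)) := by
        rw [Finset.sum_comm]
        exact Finset.sum_congr rfl fun n _ => by rw [Finset.mul_sum]
      rw [this]
      simp
    have b : (H : ℝ) * |S| = |(H : ℝ) * S| := by rw [abs_mul, abs_of_pos hH']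
    rw [b, a]
    refine (abs_add_le _ _).trans (add_le_add ?_ ?_)
    · refine (Finset.abs_sum_le_sum_abs _ _).trans ?_
      refine (Finset.sum_le_sum fun h _ => h1 h).trans ?_
      simp
      linarith
    · refine (Finset.abs_sum_le_sum_abs _ _).trans (Finset.sum_le_sum fun n _ => ?_)
      rw [abs_mul]
      exact mul_le_of_le_one_left (abs_nonneg _) (hw _)
  set W : ℝ := ∑ p : Fin H × Fin H,
    |∑ n ∈ range N, G (A + n + Q * (p.1 : ℕ)) * G (A + n + Q * (p.2 : ℕ))| with hW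
  have h3 : U ^ 2 ≤ N * W := by
    have a := inner_le_aux N (fun n => |∑ h : Fin H, G (A + n + Q * (h : ℕ))|)
    refine a.trans (mul_le_mul_of_nonneg_left ?_ hN'.le)
    have b : ∀ n : ℕ, |∑ h : Fin H, G (A + n + Q * (h : ℕ))| ^ 2 =
        ∑ p : Fin H × Fin H, G (A + n + Q * (p.1 : ℕ)) * G (A + n + Q * (p.2 : ℕ)) := by
      intro n
      rw [sq_abs, sq, Finset.sum_mul_sum, Fintype.sum_prod_type]
    simp only [b]
    rw [Finset.sum_comm]
    exact Finset.sum_le_sum fun p _ => le_abs_self _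
  have hU0 : 0 ≤ U := Finset.sum_nonneg fun _ _ => abs_nonneg _
  have h4 : ((H : ℝ) * |S|) ^ 2 ≤ 8 * δ ^ 2 * N ^ 2 * H ^ 2 + 2 * (N * W) := by
    have a : ((H : ℝ) * |S|) ^ 2 ≤ (2 * δ * N * H + U) ^ 2 :=
      pow_le_pow_left₀ (by positivity) h2 2
    nlinarith [sq_nonneg (2 * δ * N * H - U)]
  have hW0 : 0 ≤ W := Finset.sum_nonneg fun _ _ => abs_nonneg _
  have h5 : ∑ p : Fin H × Fin H, (1 / (H : ℝ) ^ 2) *
        (|∑ n ∈ range N, G (A + n + Q * (p.1 : ℕ)) * G (A + n + Q * (p.2 : ℕ))| / N) =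
        W / (H ^ 2 * N) := by
    rw [hW, Finset.sum_div]
    exact Finset.sum_congr rfl fun p _ => by field_simp
  rw [h5, div_pow, div_le_iff₀ (by positivity)]
  have h6 : δ ^ 2 ≤ δ := by nlinarith
  have h7 : |S| ^ 2 * H ^ 2 ≤ (8 * (δ + W / (H ^ 2 * N)) * N ^ 2) * H ^ 2 := by
    have e : (8 * (δ + W / (H ^ 2 * N)) * N ^ 2) * H ^ 2 = 8 * δ * N ^ 2 * H ^ 2 + 8 * (N * W) := by
      field_simp
    rw [e]
    have e2 : |S| ^ 2 * H ^ 2 = ((H : ℝ) * |S|) ^ 2 := by ring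
    rw [e2]
    have e3 : 8 * δ ^ 2 * N ^ 2 * H ^ 2 ≤ 8 * δ * (N : ℝ) ^ 2 * H ^ 2 := by
      have : 0 ≤ (N : ℝ) ^ 2 * H ^ 2 := by positivity
      nlinarith
    nlinarith [mul_nonneg hN'.le hW0]
  exact le_of_mul_le_mul_right h7 (by positivity)

/-- the cube product, split along the first coordinate -/
lemma cube_split {k : ℕ} (Q : Fin (k + 1) → ℕ) (g : ℤ → ℝ) (m : ℤ) (a a' : ℤ)
    (h h' : Fin k → ℤ) :
    ∏ ω : Fin (k + 1) → Bool, g (m + sh Q (Fin.cons a h : Fin (k + 1) → ℤ)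
      (Fin.cons a' h' : Fin (k + 1) → ℤ) ω) =
    ∏ ω : Fin k → Bool, (g (m + sh (fun i => Q i.succ) h h' ω + Q 0 * a) *
      g (m + sh (fun i => Q i.succ) h h' ω + Q 0 * a')) := by
  rw [← Equiv.prod_comp (Fin.consEquiv (fun _ => Bool)), Fintype.prod_prod_type,
    Fintype.prod_bool, ← Finset.prod_mul_distrib]
  refine Finset.prod_congr rfl fun ω _ => ?_
  congr 2
  · simp only [sh, Fin.consEquiv, Equiv.coe_fn_mk, Fin.sum_univ_succ, Fin.cons_zero, Fin.cons_succ,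
      if_true]
    ring
  · simp only [sh, Fin.consEquiv, Equiv.coe_fn_mk, Fin.sum_univ_succ, Fin.cons_zero, Fin.cons_succ]
    simp only [Bool.false_eq_true, if_false]
    ring

lemma sum_split {k H : ℕ} (T : (Fin (k + 1) → Fin H) → (Fin (k + 1) → Fin H) → ℝ) :
    ∑ h, ∑ h', T h h' = ∑ p : Fin H × Fin H, ∑ h : Fin k → Fin H, ∑ h' : Fin k → Fin H,
      T (Fin.cons p.1 h) (Fin.cons p.2 h') := by
  have e1 : ∀ F : (Fin (k + 1) → Fin H) → ℝ,
      ∑ h, F h = ∑ a : Fin H, ∑ h : Fin k → Fin H, F (Fin.cons a h) := by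
    intro F
    rw [← Equiv.sum_comp (Fin.consEquiv (fun _ => Fin H)), Fintype.sum_prod_type]
    rfl
  simp only [e1]
  rw [Fintype.sum_prod_type]
  refine Finset.sum_congr rfl fun a _ => ?_
  rw [Finset.sum_comm]

lemma cons_cast {k H : ℕ} (a : Fin H) (h : Fin k → Fin H) :
    (fun i => (((Fin.cons a h : Fin (k + 1) → Fin H) i : ℕ) : ℤ)) =
      (Fin.cons ((a : ℕ) : ℤ) (fun i => ((h i : ℕ) : ℤ)) : Fin (k + 1) → ℤ) := by
  funext i
  refine Fin.cases ?_ (fun j => ?_) i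
  · simp
  · simp

/-- **VDC.** -/
theorem vdc : S_VDC := by
  intro k
  induction k with
  | zero =>
    refine ⟨1, le_refl _, ?_⟩
    intro Q w g A N H δ hN hH hδ hδ1 hw hg hper hQ
    simp [sh]
    exact hδ
  | succ k ih =>
    obtain ⟨C, hC, ih⟩ := ih
    refine ⟨16 ^ (2 ^ k) * (1 + C), ?_, ?_⟩
    · have : (1 : ℝ) ≤ 16 ^ (2 ^ k) := one_le_pow₀ (by norm_num)
      nlinarith
    intro Q w g A N H δ hN hH hδ hδ1 hw hg hper hQ
    have hN' : (0 : ℝ) < N := by exact_mod_cast hN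
    have hH' : (0 : ℝ) < H := by exact_mod_cast hH
    set G : ℤ → ℝ := fun m => (∏ i : Fin k, w i.succ m) * g m with hGdef
    have hprod : ∀ (s : Fin k → ℝ), (∀ i, |s i| ≤ 1) → |∏ i, s i| ≤ 1 := by
      intro s hs
      rw [Finset.abs_prod]
      exact Finset.prod_le_one (fun i _ => abs_nonneg _) (fun i _ => hs i)
    have hG : ∀ m, |G m| ≤ 1 := fun m => by
      rw [hGdef]; simp only [abs_mul]
      exact mul_le_one₀ (hprod _ fun i => hw _ _) (abs_nonneg _) (hg _)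
    have hS : ∑ n ∈ range N, (∏ i, w i (A + n)) * g (A + n) =
        ∑ n ∈ range N, w 0 (A + n) * G (A + n) := by
      refine Finset.sum_congr rfl fun n _ => ?_
      rw [Fin.prod_univ_succ, hGdef]
      ring
    have h1 := vdc_one (Q 0) (w 0) G A N H δ hN hH hδ hδ1 (hw 0) hG (hper 0) (hQ 0)
    rw [hS]
    set X : Fin H × Fin H → ℝ := fun p =>
      |∑ n ∈ range N, G (A + n + Q 0 * (p.1 : ℕ)) * G (A + n + Q 0 * (p.2 : ℕ))| / N with hX
    have hX0 : ∀ p, 0 ≤ X p := fun p => by rw [hX]; positivity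
    set a : ℝ := ∑ p : Fin H × Fin H, (1 / (H : ℝ) ^ 2) * X p with ha
    have ha0 : 0 ≤ a := Finset.sum_nonneg fun p _ => mul_nonneg (by positivity) (hX0 p)
    have hmean : a ^ (2 ^ k) ≤ ∑ p : Fin H × Fin H, (1 / (H : ℝ) ^ 2) * X p ^ (2 ^ k) := by
      rw [ha]
      refine Real.pow_arith_mean_le_arith_mean_pow _ _ _ (fun _ _ => by positivity) ?_
        (fun p _ => hX0 p) _
      simp only [Finset.sum_const, Finset.card_univ, Fintype.card_prod, Fintype.card_fin,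
        nsmul_eq_mul]
      push_cast
      field_simp
    -- the induction hypothesis
    set Y : Fin H × Fin H → ℝ := fun p => (∑ h : Fin k → Fin H, ∑ h' : Fin k → Fin H,
      |∑ n ∈ range N, ∏ ω : Fin (k + 1) → Bool,
        g (A + n + sh Q (Fin.cons ((p.1 : ℕ) : ℤ) (fun i => ((h i : ℕ) : ℤ)) : Fin (k + 1) → ℤ)
          (Fin.cons ((p.2 : ℕ) : ℤ) (fun i => ((h' i : ℕ) : ℤ)) : Fin (k + 1) → ℤ) ω)| / N) /
          (H : ℝ) ^ (2 * k) with hY
    have hXY : ∀ p, X p ^ (2 ^ k) ≤ C * (δ + Y p) := by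
      intro p
      have b := ih (fun i => Q i.succ)
        (fun i m => w i.succ (m + Q 0 * (p.1 : ℕ)) * w i.succ (m + Q 0 * (p.2 : ℕ)))
        (fun m => g (m + Q 0 * (p.1 : ℕ)) * g (m + Q 0 * (p.2 : ℕ))) A N H δ hN hH hδ hδ1
        (fun i m => by rw [abs_mul]; exact mul_le_one₀ (hw _ _) (abs_nonneg _) (hw _ _))
        (fun m => by rw [abs_mul]; exact mul_le_one₀ (hg _) (abs_nonneg _) (hg _))
        (fun i m => by
          have e1 : m + (Q i.succ : ℤ) + Q 0 * ((p.1 : ℕ) : ℤ) = (m + Q 0 * (p.1 : ℕ)) + Q i.succ := by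
            ring
          have e2 : m + (Q i.succ : ℤ) + Q 0 * ((p.2 : ℕ) : ℤ) = (m + Q 0 * (p.2 : ℕ)) + Q i.succ := by
            ring
          rw [e1, e2, hper, hper])
        (fun i => hQ i.succ)
      have c : ∑ n ∈ range N, (∏ i : Fin k, (w i.succ (A + n + Q 0 * (p.1 : ℕ)) *
          w i.succ (A + n + Q 0 * (p.2 : ℕ)))) *
          (g (A + n + Q 0 * (p.1 : ℕ)) * g (A + n + Q 0 * (p.2 : ℕ))) =
          ∑ n ∈ range N, G (A + n + Q 0 * (p.1 : ℕ)) * G (A + n + Q 0 * (p.2 : ℕ)) := by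
        refine Finset.sum_congr rfl fun n _ => ?_
        rw [Finset.prod_mul_distrib, hGdef]
        ring
      rw [c] at b
      refine b.trans (le_of_eq ?_)
      rw [hY]
      congr 3
      refine Finset.sum_congr rfl fun h _ => Finset.sum_congr rfl fun h' _ => ?_
      congr 2
      refine Finset.sum_congr rfl fun n _ => ?_
      rw [cube_split]
    have hfin : ∑ p : Fin H × Fin H, (1 / (H : ℝ) ^ 2) * Y p =
        (∑ h : Fin (k + 1) → Fin H, ∑ h' : Fin (k + 1) → Fin H,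
      |∑ n ∈ range N, ∏ ω : Fin (k + 1) → Bool,
        g (A + n + sh Q (fun i => ((h i : ℕ) : ℤ)) (fun i => ((h' i : ℕ) : ℤ)) ω)| / N) /
          (H : ℝ) ^ (2 * (k + 1)) := by
      rw [sum_split (fun h h' : Fin (k + 1) → Fin H => |∑ n ∈ range N,
        ∏ ω : Fin (k + 1) → Bool,
        g (A + n + sh Q (fun i => ((h i : ℕ) : ℤ)) (fun i => ((h' i : ℕ) : ℤ)) ω)| / N)]
      rw [Finset.sum_div]
      refine Finset.sum_congr rfl fun p _ => ?_
      simp only [cons_cast]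
      rw [hY]
      simp only
      rw [show 2 * (k + 1) = 2 * k + 2 by ring, pow_add]
      field_simp
    have hsum : ∑ p : Fin H × Fin H, (1 / (H : ℝ) ^ 2) * X p ^ (2 ^ k) ≤
        C * (δ + ∑ p : Fin H × Fin H, (1 / (H : ℝ) ^ 2) * Y p) := by
      calc ∑ p : Fin H × Fin H, (1 / (H : ℝ) ^ 2) * X p ^ (2 ^ k)
          ≤ ∑ p : Fin H × Fin H, (1 / (H : ℝ) ^ 2) * (C * (δ + Y p)) :=
            Finset.sum_le_sum fun p _ => mul_le_mul_of_nonneg_left (hXY p) (by positivity)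
        _ = C * (δ + ∑ p : Fin H × Fin H, (1 / (H : ℝ) ^ 2) * Y p) := by
            have e : ∀ p : Fin H × Fin H, (1 / (H : ℝ) ^ 2) * (C * (δ + Y p)) =
                C * δ * (1 / (H : ℝ) ^ 2) + C * ((1 / (H : ℝ) ^ 2) * Y p) := fun p => by ring
            simp only [e]
            rw [Finset.sum_add_distrib, ← Finset.mul_sum, ← Finset.mul_sum]
            simp only [Finset.sum_const, Finset.card_univ, Fintype.card_prod, Fintype.card_fin,
              nsmul_eq_mul]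
            push_cast
            field_simp
    rw [hfin] at hsum
    set Z : ℝ := (∑ h : Fin (k + 1) → Fin H, ∑ h' : Fin (k + 1) → Fin H,
      |∑ n ∈ range N, ∏ ω : Fin (k + 1) → Bool,
        g (A + n + sh Q (fun i => ((h i : ℕ) : ℤ)) (fun i => ((h' i : ℕ) : ℤ)) ω)| / N) /
          (H : ℝ) ^ (2 * (k + 1)) with hZ
    have hZ0 : 0 ≤ Z := by rw [hZ]; positivity
    have hδp : δ ^ (2 ^ k) ≤ δ := by
      calc δ ^ (2 ^ k) ≤ δ ^ 1 := pow_le_pow_of_le_one hδ hδ1 Nat.one_le_two_pow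
        _ = δ := pow_one δ
    have h2 : (|∑ n ∈ range N, w 0 (A + n) * G (A + n)| / N) ^ (2 ^ (k + 1)) ≤
        (8 * (δ + a)) ^ (2 ^ k) := by
      rw [pow_succ 2 k, mul_comm (2 ^ k) 2, pow_mul]
      exact pow_le_pow_left₀ (by positivity) h1 _
    refine h2.trans ?_
    rw [mul_pow]
    have h3 : (δ + a) ^ (2 ^ k) ≤ 2 ^ (2 ^ k) * (δ + C * (δ + Z)) := by
      have b := add_pow_le hδ ha0 (2 ^ k)
      refine b.trans ?_
      have c : (2 : ℝ) ^ (2 ^ k - 1) ≤ 2 ^ (2 ^ k) := pow_le_pow_right₀ (by norm_num) (Nat.sub_le _ _)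
      have d : δ ^ (2 ^ k) + a ^ (2 ^ k) ≤ δ + C * (δ + Z) :=
        add_le_add hδp (hmean.trans hsum)
      exact mul_le_mul c d (by positivity) (by positivity)
    calc (8 : ℝ) ^ (2 ^ k) * (δ + a) ^ (2 ^ k) ≤ 8 ^ (2 ^ k) * (2 ^ (2 ^ k) * (δ + C * (δ + Z))) :=
          mul_le_mul_of_nonneg_left h3 (by positivity)
      _ = 16 ^ (2 ^ k) * (δ + C * (δ + Z)) := by
          rw [← mul_assoc, ← mul_pow]; norm_num
      _ ≤ 16 ^ (2 ^ k) * (1 + C) * (δ + Z) := by
          have : (0 : ℝ) < 16 ^ (2 ^ k) := by positivity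
          have e : δ + C * (δ + Z) ≤ (1 + C) * (δ + Z) := by nlinarith
          nlinarith

end Pool.Agent.TH134.GR
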